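import Pool.Agent.H30.Grid

set_option autoImplicit false

namespace Pool.Agent.Results.MP_75c46b_gt.Width

open Set Metric Pool.Agent.H30

/-- `C 0, …, C n` is a chain. -/
def IsChainOfSets {X : Type} {n : ℕ} (C : Fin (n + 1) → Set X) : Prop :=
  ∀ i j, (C i ∩ C j).Nonempty ↔ |((i : ℕ) : ℤ) - ((j : ℕ) : ℤ)| ≤ 1

/-- `d(A,B)`. -/
noncomputable def setDist {X : Type} [MetricSpace X] (A B : Set X) : ℝ :=
  sInf {r | ∃ p ∈ A, ∃ q ∈ B, r = dist p q}

/-- The width of a compact metric space. -/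
noncomputable def width (X : Type) [MetricSpace X] : ℝ :=
  sSup {a | ∀ ε > 0, ∃ 𝒞 : Set (Set X), 𝒞.Finite ∧ (∀ U ∈ 𝒞, IsOpen U) ∧ ⋃₀ 𝒞 = univ ∧
    (∀ U ∈ 𝒞, diam U < ε) ∧
    ∀ (n : ℕ) (C : Fin (n + 1) → Set X), (∀ i, C i ∈ 𝒞) → IsChainOfSets C →
      ∃ A ∈ 𝒞, A.Nonempty ∧ a ≤ setDist A (⋃ i, C i)}

/-- Chainable (arc-like). -/
def ArcLike (Y : Type) [MetricSpace Y] : Prop :=
  ∀ ε > 0, ∃ g : Y → unitInterval, Continuous g ∧ Function.Surjective g ∧
    ∀ z, diam (g ⁻¹' {z}) ≤ ε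

lemma cross {X : Type} [MetricSpace X] [CompactSpace X] {h : X → ℝ} (hc : Continuous h) {a : ℝ}
    (ha : 0 < a) (hn : ∀ x y, dist x y = a → h x ≠ h y) :
    ∃ δ > 0, ∀ (α β : ℕ → X) (n k : ℕ), β 0 = α 0 → (∀ x, h (α 0) ≤ h x) →
      (∀ x, h x ≤ h (α (n + 1))) → (∀ i ≤ n, dist (α (i + 1)) (α i) < δ) →
      (∀ j < k, dist (β (j + 1)) (β j) < δ) → ∃ i ≤ n, dist (α i) (β k) < a := by
  classical
  obtain ⟨δ, hδ, H⟩ := lebesgue_number_lemma_of_metric_sUnion (s := (univ : Set (X × X)))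
    (c := {{p | h p.2 < h p.1}, {p | h p.1 < h p.2}, {p | dist p.1 p.2 < a}, {p | a < dist p.1 p.2}})
    isCompact_univ (by
      rintro _ (rfl | rfl | rfl | rfl) <;> exact isOpen_lt (by fun_prop) (by fun_prop)) (by
      intro p _
      rcases lt_trichotomy (dist p.1 p.2) a with h1 | h1 | h1
      · exact ⟨_, by simp, show p ∈ {p : X × X | dist p.1 p.2 < a} from h1⟩
      · rcases (hn _ _ h1).lt_or_gt with h2 | h2
        · exact ⟨_, by simp, show p ∈ {p : X × X | h p.1 < h p.2} from h2⟩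
        · exact ⟨_, by simp, show p ∈ {p : X × X | h p.2 < h p.1} from h2⟩
      · exact ⟨_, by simp, show p ∈ {p : X × X | a < dist p.1 p.2} from h1⟩)
  refine ⟨δ, hδ, fun α β n k h0 hm hM hα hβ => ?_⟩
  let s : ℕ → ℕ → ZMod 2 := fun i j => if i = 0 ∨ h (α i) < h (β j) then 1 else 0
  let ν : ℕ → ℕ → ZMod 2 := fun i j => if dist (α i) (β j) < a then 1 else 0
  have key := grid s ν (n + 1) k (fun i hi j hj => by
      obtain ⟨t, ht, hs⟩ := H (α i, β j) trivial
      have b0 : (α i, β j) ∈ t := hs (mem_ball_self hδ)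
      have b1 : (α (i + 1), β j) ∈ t := hs (by
        simp [Prod.dist_eq, hα i (by omega)])
      have b2 : (α i, β (j + 1)) ∈ t := hs (by
        simp [Prod.dist_eq, hβ j hj])
      have b3 : (α (i + 1), β (j + 1)) ∈ t := hs (by
        simp [Prod.dist_eq, hα i (by omega), hβ j hj])
      rcases ht with rfl | rfl | rfl | rfl <;> simp only [mem_ofPred_eq] at b0 b1 b2 b3
      · have : i ≠ 0 := fun e => (hm (β j)).not_gt (e ▸ b0)
        left
        simp [s, this, b0.not_gt, b1.not_gt, b2.not_gt, b3.not_gt]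
      · left
        simp [s, b0, b1, b2, b3]
      · right
        simp [ν, b0, b1, b2]
      · right
        simp [ν, b0.not_gt, b1.not_gt, b2.not_gt])
    (fun j _ => by
      have : (1 + 1 : ZMod 2) = 0 := rfl
      simp [s, this])
    (fun j _ => by simp [s, (hM _).not_gt])
  by_contra hne
  push Not at hne
  rw [Finset.sum_eq_zero fun i hi => by
    simp [ν, (hne i (Nat.lt_succ_iff.1 (Finset.mem_range.1 hi))).not_gt],
    Finset.sum_range_succ', Finset.sum_eq_zero fun i _ => by simp [s, h0, (hm _).not_gt]] at key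
  simp [s, ν, h0, ha, (hm _).not_gt] at key

def Link {X : Type} (𝒞 : Set (Set X)) (x y : X) (n : ℕ) : Prop :=
  ∃ C : ℕ → Set X, (∀ i ≤ n, C i ∈ 𝒞) ∧ x ∈ C 0 ∧ y ∈ C n ∧ ∀ i < n, (C i ∩ C (i + 1)).Nonempty

lemma link {X : Type} [TopologicalSpace X] [PreconnectedSpace X] {𝒞 : Set (Set X)}
    (ho : ∀ U ∈ 𝒞, IsOpen U) (hu : ⋃₀ 𝒞 = univ) (x y : X) : ∃ n, Link 𝒞 x y n := by
  have step : ∀ U ∈ 𝒞, ∀ y ∈ U, ∀ z ∈ U, (∃ n, Link 𝒞 x y n) → ∃ n, Link 𝒞 x z n := by
    rintro U hU y hy z hz ⟨n, C, h1, h2, h3, h4⟩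
    refine ⟨n + 1, fun i => if i ≤ n then C i else U, fun i _ => ?_, by simpa using h2,
      by simpa using hz, fun i hi => ?_⟩
    · by_cases h : i ≤ n
      · simpa [h] using h1 i h
      · simpa [h] using hU
    · rcases (Nat.lt_succ_iff.1 hi).eq_or_lt with rfl | h
      · exact ⟨y, by simpa using h3, by simpa using hy⟩
      · simpa [h.le, Nat.succ_le_of_lt h] using h4 i h
  have hc : IsClopen {y | ∃ n, Link 𝒞 x y n} := by
    refine ⟨⟨isOpen_iff_mem_nhds.2 fun y hy => ?_⟩, isOpen_iff_mem_nhds.2 fun y hy => ?_⟩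
    · obtain ⟨U, hU, h⟩ := hu.ge (mem_univ y)
      exact Filter.mem_of_superset ((ho U hU).mem_nhds h) fun z hz h' => hy (step U hU z hz y h h')
    · obtain ⟨U, hU, h⟩ := hu.ge (mem_univ y)
      exact Filter.mem_of_superset ((ho U hU).mem_nhds h) fun z hz => step U hU y h z hz hy
  obtain ⟨U, hU, h⟩ := hu.ge (mem_univ x)
  exact (hc.eq_univ ⟨x, 0, fun _ => U, fun _ _ => hU, h, h, fun _ h => by omega⟩).ge (mem_univ y)

lemma points {X : Type} {C : ℕ → Set X} {x y : X} {n : ℕ} (h2 : x ∈ C 0) (h3 : y ∈ C n)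
    (h4 : ∀ i < n, (C i ∩ C (i + 1)).Nonempty) :
    ∃ α : ℕ → X, α 0 = x ∧ α (n + 1) = y ∧ ∀ i ≤ n, α i ∈ C i ∧ α (i + 1) ∈ C i := by
  have : Nonempty X := ⟨x⟩
  choose! p hp using h4
  refine ⟨fun i => Nat.casesOn i x fun j => if j < n then p j else y, rfl, by simp, fun i hi => ?_⟩
  constructor
  · rcases i with _ | j
    · exact h2
    · simpa [show j < n by omega] using (hp j (by omega)).2
  · rcases hi.eq_or_lt with rfl | h
    · simpa using h3
    · simpa [h] using (hp i h).1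

lemma chain {X : Type} {𝒞 : Set (Set X)} {x y : X} (h : ∃ n, Link 𝒞 x y n) :
    ∃ (n : ℕ) (C : ℕ → Set X), (∀ i ≤ n, C i ∈ 𝒞) ∧ x ∈ C 0 ∧ y ∈ C n ∧
      (∀ i < n, (C i ∩ C (i + 1)).Nonempty) ∧ IsChainOfSets fun i : Fin (n + 1) => C i := by
  classical
  obtain ⟨C, h1, h2, h3, h4⟩ := Nat.find_spec h
  have hmin := fun m => Nat.find_min h (m := m)
  set n := Nat.find h
  have key : ∀ i j, i ≤ j → j ≤ n → ((C i ∩ C j).Nonempty ↔ j ≤ i + 1) := by
    intro i j hij hj
    refine ⟨fun hne => by_contra fun hlt => ?_, fun hle => ?_⟩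
    · obtain ⟨d, rfl⟩ : ∃ d, j = i + 1 + (d + 1) := ⟨j - i - 2, by omega⟩
      obtain ⟨m, hm⟩ : ∃ m, n = m + (d + 1) := ⟨n - (d + 1), by omega⟩
      refine hmin m (by omega) ⟨fun k => if k ≤ i then C k else C (k + (d + 1)), fun k hk => ?_,
        by simpa using h2, ?_, fun k hk => ?_⟩
      · by_cases h : k ≤ i
        · simpa [h] using h1 k (by omega)
        · simpa [h] using h1 _ (by omega)
      · simpa [show ¬ m ≤ i by omega, ← hm] using h3
      · rcases lt_trichotomy k i with h | rfl | h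
        · simpa [h.le, Nat.succ_le_of_lt h] using h4 k (by omega)
        · simpa using hne
        · have := h4 (k + (d + 1)) (by omega)
          rw [show k + (d + 1) + 1 = k + 1 + (d + 1) by omega] at this
          simpa [show ¬ k ≤ i by omega, show ¬ k + 1 ≤ i by omega] using this
    · rcases hij.eq_or_lt with rfl | hlt
      · rw [inter_self]
        rcases hj.eq_or_lt with rfl | h
        · exact ⟨y, h3⟩
        · exact (h4 i h).mono inter_subset_left
      · obtain rfl : j = i + 1 := by omega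
        exact h4 i hj
  refine ⟨n, C, h1, h2, h3, h4, fun i j => ?_⟩
  rw [abs_le]
  rcases le_total (i : ℕ) j with h | h
  · rw [key i j h (by omega)]
    omega
  · rw [inter_comm, key j i h (by omega)]
    omega

/-- For every continuum `X` (tree-like or not), every chainable continuum `Y`, every continuous
`f : X → Y` and `0 < a < w(X)` there are points at distance `a` with the same image. -/
theorem result (X Y : Type) [MetricSpace X] [CompactSpace X] [ConnectedSpace X]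
    [MetricSpace Y] [CompactSpace Y] [ConnectedSpace Y] (hY : ArcLike Y)
    (f : X → Y) (hf : Continuous f) (a : ℝ) (ha : 0 < a) (hw : a < width X) :
    ∃ x y : X, dist x y = a ∧ f x = f y := by
  by_contra hn
  push Not at hn
  obtain ⟨ε, hε, hε'⟩ : ∃ ε > 0, ∀ x y, dist x y = a → ε < dist (f x) (f y) := by
    rcases eq_empty_or_nonempty {p : X × X | dist p.1 p.2 = a} with h | h
    · exact ⟨1, one_pos, fun x y e => (h.le (show (x, y) ∈ _ from e)).elim⟩
    · obtain ⟨p, hp, h'⟩ := (isClosed_eq (by fun_prop) continuous_const).isCompact.exists_isMinOn h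
        (f := fun p : X × X => dist (f p.1) (f p.2)) (by fun_prop)
      have := dist_pos.2 (hn _ _ hp)
      exact ⟨_, half_pos this, fun x y e => (half_lt_self this).trans_le (h' (a := (x, y)) e)⟩
  obtain ⟨g, hg, -, hg'⟩ := hY ε hε
  have hc : Continuous fun x => (g (f x) : ℝ) := by fun_prop
  obtain ⟨δ, hδ, H⟩ := cross hc ha fun x y e h => (hε' x y e).not_ge
    ((dist_le_diam_of_mem isBounded_of_compactSpace
      (show f x ∈ g ⁻¹' {g (f y)} from Subtype.ext h) rfl).trans (hg' (g (f y))))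
  obtain ⟨b, hb, hab⟩ := exists_lt_of_lt_csSup (nonempty_iff_ne_empty.2 fun h => by
    rw [width, h, Real.sSup_empty] at hw
    exact hw.not_gt ha) hw
  obtain ⟨𝒞, -, ho, hu, hd, h⟩ := hb δ hδ
  obtain ⟨m, -, hm⟩ := isCompact_univ.exists_isMinOn univ_nonempty hc.continuousOn
  obtain ⟨M, -, hM⟩ := isCompact_univ.exists_isMaxOn univ_nonempty hc.continuousOn
  obtain ⟨n, C, h1, h2, h3, h4, h5⟩ := chain (link ho hu m M)
  obtain ⟨A, -, ⟨z, hz⟩, hA⟩ := h n _ (fun i => h1 i (by omega)) h5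
  obtain ⟨α, a0, a1, a2⟩ := points h2 h3 h4
  obtain ⟨k, D, k1, k2, k3, k4⟩ := link ho hu m z
  obtain ⟨β, b0, b1, b2⟩ := points k2 k3 k4
  obtain ⟨i, hi, hlt⟩ := H α β n (k + 1) (b0.trans a0.symm) (fun x => a0 ▸ hm trivial)
    (fun x => a1 ▸ hM trivial)
    (fun i hi => (dist_le_diam_of_mem isBounded_of_compactSpace (a2 i hi).2 (a2 i hi).1).trans_lt
      (hd _ (h1 i hi)))
    (fun i hi => (dist_le_diam_of_mem isBounded_of_compactSpace (b2 i (by omega)).2
      (b2 i (by omega)).1).trans_lt (hd _ (k1 i (by omega))))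
  rw [b1, dist_comm] at hlt
  refine (hlt.trans (hab.trans_le hA)).not_ge (csInf_le ⟨0, ?_⟩
    ⟨z, hz, α i, mem_iUnion.2 ⟨⟨i, by omega⟩, (a2 i hi).1⟩, rfl⟩)
  rintro _ ⟨_, -, _, -, rfl⟩
  exact dist_nonneg

end Pool.Agent.Results.MP_75c46b_gt.Width
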